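import Pool.Agent.H23.OM.Sml
import Pool.Agent.H85.OM.PQ

/-!
# Module BLK (helper82): the large primes against Poisson variables
-/

set_option autoImplicit false

namespace Pool.Agent.H82.OM

open Finset hiding val
open MeasureTheory ProbabilityTheory
open scoped NNReal
open Pool.Agent.H19.OM

theorem P_le (a : ℝ≥0) {k : ℕ} {f : (Fin k → ℕ) → ℝ} {B : ℝ} (h : ∀ z, |f z| ≤ B) :
    |P a f| ≤ B := by
  unfold P
  have h1 := norm_integral_le_of_norm_le_const (μ := Measure.pi (fun _ : Fin k => poissonMeasure a))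
    (f := f) (C := B) (Filter.Eventually.of_forall fun z => by rw [Real.norm_eq_abs]; exact h z)
  rw [Real.norm_eq_abs] at h1
  refine h1.trans (le_of_eq ?_)
  rw [probReal_univ, mul_one]

theorem P_diff (a : ℝ≥0) {k : ℕ} {f g : (Fin k → ℕ) → ℝ} {B : ℝ} (hf : Bd f) (hg : Bd g)
    (h : ∀ z, |f z - g z| ≤ B) : |P a f - P a g| ≤ B := by
  rw [Pool.Agent.H23.OM.P_sub a hf hg]
  exact P_le a h

theorem P_zero {k : ℕ} {φ : (Fin k → ℕ) → ℝ} (hφ : Bd φ) : P 0 φ = φ 0 := by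
  have h := Pool.Agent.H85.OM.decP 0 k hφ
  simp only [NNReal.coe_zero, mul_zero, neg_zero, Real.exp_zero, zero_mul, sum_const_zero,
    zero_add, one_mul, sub_zero, sub_self] at h
  exact sub_eq_zero.1 (abs_nonpos_iff.1 h)

theorem blk_gen (hPAD : S_PAD) (L : ℕ → ℕ) (k : ℕ) (T : Finset ℕ → ((Fin k → ℕ) → ℝ) → ℝ)
    (h0 : ∀ φ, T ∅ φ = φ 0) (hle : ∀ S φ, Bd φ → |T S φ| ≤ 1)
    (hcrt : ∀ S S' : Finset ℕ, Disjoint S S' → (∀ p ∈ S ∪ S', p.Prime) →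
      ∀ φ, T (S ∪ S') φ = T S (fun u => T S' (fun v => φ (u + v))))
    (hone : ∀ q : ℕ, q.Prime → k ≤ q → L q = 1 → ∀ φ, Bd φ →
      |T {q} φ - P (1 / (q : ℝ≥0)) φ| ≤ 3 * ((k : ℝ) / q) ^ 2) :
    ∀ B : Finset ℕ, (∀ q ∈ B, q.Prime ∧ k ≤ q ∧ L q = 1) → ∀ φ : (Fin k → ℕ) → ℝ, Bd φ →
      |T B φ - P (∑ q ∈ B, 1 / (q : ℝ≥0)) φ| ≤ 3 * ∑ q ∈ B, ((k : ℝ) / q) ^ 2 := by
  intro B
  induction B using Finset.induction_on with
  | empty =>
    intro _ φ hφ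
    rw [sum_empty, sum_empty, h0, P_zero hφ, sub_self, abs_zero, mul_zero]
  | insert q B hq ih =>
    intro hB φ hφ
    have hB' : ∀ p ∈ B, p.Prime ∧ k ≤ p ∧ L p = 1 := fun p hp => hB p (mem_insert_of_mem hp)
    obtain ⟨hq1, hq2, hq3⟩ := hB q (mem_insert_self q B)
    have hsh : ∀ u : Fin k → ℕ, Bd (fun v => φ (u + v)) := fun u v => hφ _
    have e : T (insert q B) φ = T {q} (fun u => T B (fun v => φ (u + v))) := by
      rw [insert_eq]
      refine hcrt {q} B (disjoint_singleton_left.2 hq) (fun p hp => ?_) φ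
      rw [← insert_eq] at hp
      exact (hB p hp).1
    have h1 : Bd (fun u => T B (fun v => φ (u + v))) := fun u => hle B _ (hsh u)
    have h2 := hone q hq1 hq2 hq3 _ h1
    have h3 : |P (1 / (q : ℝ≥0)) (fun u => T B (fun v => φ (u + v))) -
        P (1 / (q : ℝ≥0)) (fun u => P (∑ q ∈ B, 1 / (q : ℝ≥0)) (fun v => φ (u + v)))| ≤
        3 * ∑ q ∈ B, ((k : ℝ) / q) ^ 2 :=
      P_diff _ h1 (fun u => P_le _ (hsh u)) fun u => ih hB' _ (hsh u)
    have h4 : P (1 / (q : ℝ≥0)) (fun u => P (∑ q ∈ B, 1 / (q : ℝ≥0)) (fun v => φ (u + v))) =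
        P (∑ q ∈ insert q B, 1 / (q : ℝ≥0)) φ := by
      rw [hPAD _ _ k φ hφ, sum_insert hq]
    rw [h4] at h3
    have h5 : (3 : ℝ) * ∑ q ∈ insert q B, ((k : ℝ) / q) ^ 2 =
        3 * ((k : ℝ) / q) ^ 2 + 3 * ∑ q ∈ B, ((k : ℝ) / q) ^ 2 := by
      rw [sum_insert hq, mul_add]
    rw [e, h5]
    calc |T {q} (fun u => T B (fun v => φ (u + v))) - P (∑ q ∈ insert q B, 1 / (q : ℝ≥0)) φ| ≤
        |T {q} (fun u => T B (fun v => φ (u + v))) -
          P (1 / (q : ℝ≥0)) (fun u => T B (fun v => φ (u + v)))| +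
        |P (1 / (q : ℝ≥0)) (fun u => T B (fun v => φ (u + v))) -
          P (∑ q ∈ insert q B, 1 / (q : ℝ≥0)) φ| := abs_sub_le _ _ _
      _ ≤ _ := add_le_add h2 h3

/-- MODULE BLK -/
theorem t_BLK (hPQ : S_PQ) (hPAD : S_PAD) (hCRT : S_CRT) : S_BLK := by
  intro B k L hk hB φ hφ
  refine ⟨?_, ?_⟩
  · exact blk_gen hPAD L k (fun S φ => J L S φ) (fun φ => Pool.Agent.H23.OM.J_empty L φ)
      (fun S φ hφ => Pool.Agent.H23.OM.J_le zero_le_one hφ)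
      (fun S S' hd hp φ => (hCRT L S S' hd hp k φ).1)
      (fun q hq hkq hL φ hφ => (hPQ q k L hq hk hkq hL φ hφ).1) B hB φ hφ
  · exact blk_gen hPAD L k (fun S φ => I L S φ) (fun φ => Pool.Agent.H23.OM.I_empty L φ)
      (fun S φ hφ => Pool.Agent.H23.OM.I_le zero_le_one hφ)
      (fun S S' hd hp φ => (hCRT L S S' hd hp k φ).2)
      (fun q hq hkq hL φ hφ => (hPQ q k L hq hk hkq hL φ hφ).2) B hB φ hφ

end Pool.Agent.H82.OM
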