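import Pool.Agent.H19.OM.Stm3

/-!
# Module K2 (helper82): a periodic indicator function
-/

set_option autoImplicit false

namespace Pool.Agent.H82.OM

open Finset hiding val
open Pool.Agent.H19.OM

/-- `t` periods -/
theorem per_count {P : ℕ → Prop} [DecidablePred P] {m : ℕ} (h : Function.Periodic P m) (s t : ℕ) :
    ((Ico s (s + t * m)).filter P).card = t * Nat.count P m := by
  induction t with
  | zero => simp
  | succ t ih =>
    have h1 : Ico s (s + (t + 1) * m) = Ico s (s + t * m) ∪ Ico (s + t * m) (s + t * m + m) := by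
      rw [Ico_union_Ico_eq_Ico (by omega) (by omega)]
      congr 1
      ring
    have h2 : Disjoint ((Ico s (s + t * m)).filter P) ((Ico (s + t * m) (s + t * m + m)).filter P) :=
      disjoint_filter_filter (Ico_disjoint_Ico_consecutive _ _ _)
    rw [h1, filter_union, card_union_of_disjoint h2, ih,
      Nat.filter_Ico_card_eq_of_periodic _ _ _ h]
    ring

/-- the number in `[1, N]` against the density -/
theorem per_close {P : ℕ → Prop} [DecidablePred P] {m : ℕ} (h : Function.Periodic P m) (hm : 0 < m)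
    {N : ℕ} (hN : 1 ≤ N) :
    |(((Icc 1 N).filter P).card : ℝ) / N - (Nat.count P m : ℝ) / m| ≤ m / N := by
  have hm' : (0 : ℝ) < m := by exact_mod_cast hm
  have hN' : (0 : ℝ) < N := by exact_mod_cast hN
  set c := Nat.count P m with hc
  have hcm : c ≤ m := Nat.count_le P
  have hdiv := Nat.div_add_mod N m
  have hmod := Nat.mod_lt N hm
  set t := N / m with ht
  have hsub1 : Ico 1 (1 + t * m) ⊆ Icc 1 N := by
    intro x hx
    rw [mem_Ico] at hx
    rw [mem_Icc]
    have h3 : t * m = m * t := mul_comm _ _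
    omega
  have hsub2 : Icc 1 N ⊆ Ico 1 (1 + (t + 1) * m) := by
    intro x hx
    rw [mem_Icc] at hx
    rw [mem_Ico]
    have h3 : (t + 1) * m = m * t + m := by ring
    omega
  have h1 := card_le_card (filter_subset_filter P hsub1)
  have h2 := card_le_card (filter_subset_filter P hsub2)
  rw [per_count h] at h1 h2
  have h1' : (t : ℝ) * c ≤ (((Icc 1 N).filter P).card : ℝ) := by exact_mod_cast h1
  have h2' : (((Icc 1 N).filter P).card : ℝ) ≤ ((t : ℝ) + 1) * c := by exact_mod_cast h2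
  have h3 : (m : ℝ) * t ≤ N := by
    have : m * t ≤ N := by omega
    exact_mod_cast this
  have h4 : (N : ℝ) ≤ m * t + m := by
    have : N ≤ m * t + m := by omega
    exact_mod_cast this
  have hc' : (c : ℝ) ≤ m := by exact_mod_cast hcm
  have hc0 : (0 : ℝ) ≤ c := Nat.cast_nonneg c
  have e : (((Icc 1 N).filter P).card : ℝ) / N - (c : ℝ) / m =
      ((((Icc 1 N).filter P).card : ℝ) * m - c * N) / (N * m) := by
    field_simp
  rw [e, abs_div, abs_of_pos (mul_pos hN' hm'), div_le_div_iff₀ (mul_pos hN' hm') hN']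
  have h5 : |(((Icc 1 N).filter P).card : ℝ) * m - c * N| ≤ m * m := by
    rw [abs_le]
    constructor
    · nlinarith [mul_le_mul_of_nonneg_right h1' hm'.le, mul_le_mul_of_nonneg_left h4 hc0,
        mul_le_mul_of_nonneg_right hc' hm'.le]
    · nlinarith [mul_le_mul_of_nonneg_right h2' hm'.le, mul_le_mul_of_nonneg_left h3 hc0,
        mul_le_mul_of_nonneg_right hc' hm'.le]
  calc |(((Icc 1 N).filter P).card : ℝ) * m - c * N| * N ≤ (m * m) * N :=
      mul_le_mul_of_nonneg_right h5 hN'.le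
    _ = m * (N * m) := by ring

/-- MODULE K2 -/
theorem t_K2 : S_K2 := by
  intro T Q N hN hQ hT
  set m := T.lcm fun x => x.2.1 ^ x.2.2 with hm
  have hmQ : m ∣ Q := Finset.lcm_dvd fun x hx => (hT x hx).2
  have hmpos : 0 < m := Nat.pos_of_dvd_of_pos hmQ hQ
  have hmdvd : ∀ x ∈ T, x.2.1 ^ x.2.2 ∣ m := fun x hx => Finset.dvd_lcm hx
  have hprod : m ∣ ∏ x ∈ T, x.2.1 ^ x.2.2 :=
    Finset.lcm_dvd fun x hx => Finset.dvd_prod_of_mem _ hx
  have hpos : 0 < ∏ x ∈ T, x.2.1 ^ x.2.2 :=
    Finset.prod_pos fun x hx => pow_pos (hT x hx).1 _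
  have hle : m ≤ ∏ x ∈ T, x.2.1 ^ x.2.2 := Nat.le_of_dvd hpos hprod
  have hle' : (m : ℝ) ≤ ∏ x ∈ T, (x.2.1 : ℝ) ^ x.2.2 := by exact_mod_cast hle
  have hper : Function.Periodic (fun n => ∀ x ∈ T, x.2.1 ^ x.2.2 ∣ n + x.1) m := by
    intro n
    apply propext
    refine forall₂_congr fun x hx => ?_
    rw [show n + m + x.1 = m + (n + x.1) by ring]
    exact Nat.dvd_add_right (hmdvd x hx)
  obtain ⟨t, ht⟩ := hmQ
  have h1 : (((range Q).filter (fun n => ∀ x ∈ T, x.2.1 ^ x.2.2 ∣ n + x.1)).card : ℝ) / Q =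
      (Nat.count (fun n => ∀ x ∈ T, x.2.1 ^ x.2.2 ∣ n + x.1) m : ℝ) / m := by
    have h2 := per_count hper 0 t
    have h3 : Ico 0 (0 + t * m) = range Q := by
      rw [zero_add, ht, mul_comm t m, range_eq_Ico]
    rw [h3] at h2
    rw [h2, ht]
    have hm' : (m : ℝ) ≠ 0 := by exact_mod_cast hmpos.ne'
    have ht0 : (t : ℝ) ≠ 0 := by
      rintro h0
      have : t = 0 := by exact_mod_cast h0
      rw [this, mul_zero] at ht
      omega
    push_cast
    field_simp
  rw [h1]
  refine (per_close hper hmpos hN).trans ?_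
  have hN' : (0 : ℝ) < N := by exact_mod_cast hN
  refine div_le_div_of_nonneg_right ?_ hN'.le
  have : (0 : ℝ) ≤ m := Nat.cast_nonneg m
  linarith

end Pool.Agent.H82.OM
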