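import Pool.Agent.H19.OM.Stm4
import Pool.Agent.H23.OM.Sml

/-!
# Module TWO (helper82): the combination of the smallest, the small and the large primes
-/

set_option autoImplicit false

namespace Pool.Agent.H82.OM

open Finset hiding val
open MeasureTheory ProbabilityTheory
open scoped NNReal
open Pool.Agent.H19.OM
open Pool.Agent.H23.OM (J_le I_le integrable_bd P_I P_sub I_sub)

theorem J_sub2 {L : ℕ → ℕ} {S : Finset ℕ} {k : ℕ} (f g : (Fin k → ℕ) → ℝ) :
    J L S f - J L S g = J L S (fun u => f u - g u) := by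
  unfold J
  rw [← sub_div, ← sum_sub_distrib]

theorem P_J2 (a : ℝ≥0) {L : ℕ → ℕ} {S : Finset ℕ} {k : ℕ} {F : (Fin k → ℕ) → (Fin k → ℕ) → ℝ}
    {B : ℝ} (h : ∀ w u, |F w u| ≤ B) :
    P a (fun w => J L S (fun u => F w u)) = J L S (fun u => P a (fun w => F w u)) := by
  unfold P J
  rw [integral_div, integral_finsetSum]
  exact fun n _ => integrable_bd a fun w => h w _

theorem J_close {L : ℕ → ℕ} {S : Finset ℕ} {k : ℕ} {f g : (Fin k → ℕ) → ℝ} {c : ℝ} (hc : 0 ≤ c)
    (h : ∀ u, |f u - g u| ≤ c) : |J L S f - J L S g| ≤ c := by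
  rw [J_sub2]
  exact J_le hc h

theorem I_close {L : ℕ → ℕ} {S : Finset ℕ} {k : ℕ} {f g : (Fin k → ℕ) → ℝ} {c : ℝ} (hc : 0 ≤ c)
    (h : ∀ u, |f u - g u| ≤ c) : |I L S f - I L S g| ≤ c := by
  rw [I_sub]
  exact I_le hc h

/-- MODULE TWO -/
theorem t_TWO (hAVG : S_AVG) (hSMC : S_SMC) (hBLK : S_BLK) (hCRT : S_CRT) : S_TWO := by
  intro C hC
  obtain ⟨K, hK, hS⟩ := hSMC C hC
  refine ⟨K, hK, ?_⟩
  intro S₁ S₂ B k L V h12 hB hk ha0 hka hBp hS1 hV hS2 φ hφ
  set a : ℝ≥0 := ∑ q ∈ B, 1 / (q : ℝ≥0) with ha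
  have ha' : (a : ℝ) = ∑ q ∈ B, 1 / (q : ℝ) := by
    rw [ha]
    push_cast
    rfl
  rw [← ha'] at ha0 hka ⊢
  have hapos : 0 < a := by exact_mod_cast ha0
  set e : ℝ := 3 * ∑ q ∈ B, ((k : ℝ) / q) ^ 2 with he
  have he0 : 0 ≤ e := by positivity
  set d : ℝ := K * (∑ p ∈ S₂, ((k : ℝ) / (p * Real.sqrt p) + Real.sqrt k / p)) / a with hd
  have hd0 : 0 ≤ d := by positivity
  have hp12 : ∀ p ∈ S₁ ∪ S₂, p.Prime := by
    intro p hp
    rcases mem_union.1 hp with h | h
    · exact hS1 p h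
    · exact (hS2 p h).1
  have hpall : ∀ p ∈ (S₁ ∪ S₂) ∪ B, p.Prime := by
    intro p hp
    rcases mem_union.1 hp with h | h
    · exact hp12 p h
    · exact (hBp p h).1
  have hsh : ∀ u : Fin k → ℕ, Bd (fun v => φ (u + v)) := fun u v => hφ _
  -- the large primes
  have hJ : |J L ((S₁ ∪ S₂) ∪ B) φ - P a (fun w => J L (S₁ ∪ S₂) (fun u => φ (w + u)))| ≤ e := by
    have h1 : P a (fun w => J L (S₁ ∪ S₂) (fun u => φ (w + u))) =
        J L (S₁ ∪ S₂) (fun u => P a (fun w => φ (u + w))) := by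
      rw [P_J2 a (B := 1) (F := fun w u => φ (w + u)) fun w u => hφ _]
      simp only [add_comm]
    rw [h1, (hCRT L (S₁ ∪ S₂) B hB hpall k φ).1]
    exact J_close he0 fun u => (hBLK B k L hk hBp _ (hsh u)).1
  have hI : |I L ((S₁ ∪ S₂) ∪ B) φ - P a (fun w => I L (S₁ ∪ S₂) (fun u => φ (w + u)))| ≤ e := by
    have h1 : P a (fun w => I L (S₁ ∪ S₂) (fun u => φ (w + u))) =
        I L (S₁ ∪ S₂) (fun u => P a (fun w => φ (u + w))) := by
      rw [P_I a (B := 1) (F := fun w u => φ (w + u)) fun w u => hφ _]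
      simp only [add_comm]
    rw [h1, (hCRT L (S₁ ∪ S₂) B hB hpall k φ).2]
    exact I_close he0 fun u => (hBLK B k L hk hBp _ (hsh u)).2
  -- the small primes
  have hψ : Bd (fun x => I L S₂ (fun v => φ (x + v))) := fun x => I_le zero_le_one fun v => hφ _
  have hM : |P a (fun w => J L (S₁ ∪ S₂) (fun u => φ (w + u))) -
      P a (fun w => J L S₁ (fun u => (fun x => I L S₂ (fun v => φ (x + v))) (w + u)))| ≤ d := by
    have e1 : ∀ w : Fin k → ℕ, J L (S₁ ∪ S₂) (fun u => φ (w + u)) =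
        J L S₁ (fun u => J L S₂ (fun v => φ (w + u + v))) := by
      intro w
      rw [(hCRT L S₁ S₂ h12 hp12 k (fun u => φ (w + u))).1]
      simp only [add_assoc]
    simp only [e1]
    have h2 : P a (fun w => J L S₁ (fun u => J L S₂ (fun v => φ (w + u + v)))) =
        J L S₁ (fun u => P a (fun w => J L S₂ (fun v => φ (w + u + v)))) :=
      P_J2 a (B := 1) (F := fun w u => J L S₂ (fun v => φ (w + u + v))) fun w u =>
        J_le zero_le_one fun v => hφ _
    have h3 : P a (fun w => J L S₁ (fun u => I L S₂ (fun v => φ (w + u + v)))) =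
        J L S₁ (fun u => P a (fun w => I L S₂ (fun v => φ (w + u + v)))) :=
      P_J2 a (B := 1) (F := fun w u => I L S₂ (fun v => φ (w + u + v))) fun w u =>
        I_le zero_le_one fun v => hφ _
    rw [h2, h3]
    refine J_close hd0 fun u => ?_
    have h5 := hS S₂ k L a hk hapos hka (fun p hp => by rw [ha']; exact hS2 p hp)
      (fun x => φ (x + u)) fun z => hφ _
    have h6 : ∀ w v : Fin k → ℕ, w + v + u = w + u + v := fun w v => add_right_comm w v u
    simp only [h6] at h5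
    exact h5
  -- the smallest primes
  have hA := hAVG a hapos L S₁ k V hS1 hV (fun x => I L S₂ (fun v => φ (x + v))) hψ
  have e2 : ∀ w : Fin k → ℕ, I L (S₁ ∪ S₂) (fun u => φ (w + u)) =
      I L S₁ (fun u => (fun x => I L S₂ (fun v => φ (x + v))) (w + u)) := by
    intro w
    rw [(hCRT L S₁ S₂ h12 hp12 k (fun u => φ (w + u))).2]
    simp only [add_assoc]
  simp only [e2] at hI
  have h6e : 6 * ∑ q ∈ B, ((k : ℝ) / q) ^ 2 = e + e := by
    rw [he]
    ring
  rw [h6e]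
  rw [abs_le] at hJ hI hM hA ⊢
  constructor
  · linarith [hJ.1, hI.2, hM.1, hA.1]
  · linarith [hJ.2, hI.1, hM.2, hA.2]

end Pool.Agent.H82.OM
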